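import Mathlib
import Pool.Agent.Q213.EtaMap

/-!
# MP_53e992_co : tree-like graphs of uncountable motion need not be 2-distinguishable
-/

namespace Pool.Agent.Results.MP_53e992_co.NotTwoDistinguishable

open Cardinal Set Pool.Agent.Q213.EtaOrder

/-- `(G, w)` is tree-like: `G` is connected and every vertex `y` has a neighbour `x` such that `y`
lies on every shortest path from `x` to `w`. -/
def TreeLike {V : Type} (G : SimpleGraph V) (w : V) : Prop :=
  G.Connected ∧ ∀ y, ∃ x, G.Adj y x ∧ ∀ p : G.Walk x w, p.length = G.dist x w → y ∈ p.support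

/-- `m` is the motion of `G`: the least number of vertices moved by a non-identity
automorphism (in particular such an automorphism exists). -/
def HasMotion {V : Type} (G : SimpleGraph V) (m : Cardinal.{0}) : Prop :=
  IsLeast {c | ∃ φ : G ≃g G, φ ≠ RelIso.refl _ ∧ c = #{v | φ v ≠ v}} m

/-- the maximum degree of `G` -/
noncomputable def maxDeg {V : Type} (G : SimpleGraph V) : Cardinal.{0} :=
  ⨆ v, #(G.neighborSet v)

/-! ## The construction -/

inductive Core (Ω : Type) : Type
  | root : Core Ω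
  | lo : Ω → Core Ω
  | hi : Ω → Core Ω

def coreAdj {Ω : Type} [LinearOrder Ω] : Core Ω → Core Ω → Prop
  | .root, .lo _ => True
  | .lo _, .root => True
  | .lo p, .hi q => p ≤ q
  | .hi q, .lo p => p ≤ q
  | _, _ => False

theorem coreAdj_symm {Ω : Type} [LinearOrder Ω] {u v : Core Ω} (h : coreAdj u v) :
    coreAdj v u := by
  cases u <;> cases v <;> simp_all [coreAdj]

theorem coreAdj_ne {Ω : Type} [LinearOrder Ω] {u v : Core Ω} (h : coreAdj u v) : u ≠ v := by
  rintro rfl
  cases u <;> simp [coreAdj] at h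

/-- the graph: the core with a pendant ray at each of its vertices -/
def gr (Ω : Type) [LinearOrder Ω] : SimpleGraph (Core Ω × ℕ) where
  Adj x y := (x.1 = y.1 ∧ (y.2 = x.2 + 1 ∨ x.2 = y.2 + 1)) ∨
    (x.2 = 0 ∧ y.2 = 0 ∧ coreAdj x.1 y.1)
  symm := ⟨fun x y h => by
    rcases h with ⟨h1, h2⟩ | ⟨h1, h2, h3⟩
    · exact Or.inl ⟨h1.symm, h2.symm⟩
    · exact Or.inr ⟨h2, h1, coreAdj_symm h3⟩⟩
  loopless := ⟨fun x h => by
    rcases h with ⟨_, h2⟩ | ⟨_, _, h3⟩
    · rcases h2 with h2 | h2 <;> omega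
    · exact coreAdj_ne h3 rfl⟩

section graph

variable {Ω : Type} [LinearOrder Ω]

theorem adj_iff (x y : Core Ω × ℕ) : (gr Ω).Adj x y ↔
    (x.1 = y.1 ∧ (y.2 = x.2 + 1 ∨ x.2 = y.2 + 1)) ∨ (x.2 = 0 ∧ y.2 = 0 ∧ coreAdj x.1 y.1) :=
  Iff.rfl

theorem adj_up (v : Core Ω) (n : ℕ) : (gr Ω).Adj (v, n) (v, n + 1) := Or.inl ⟨rfl, Or.inl rfl⟩

theorem adj_core {u v : Core Ω} : (gr Ω).Adj (u, 0) (v, 0) ↔ coreAdj u v := by
  rw [adj_iff]
  constructor
  · rintro (⟨_, h | h⟩ | ⟨_, _, h⟩)
    · simp at h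
    · simp at h
    · exact h
  · intro h
    exact Or.inr ⟨rfl, rfl, h⟩

theorem adj_ray {v : Core Ω} {n : ℕ} {x : Core Ω × ℕ} :
    (gr Ω).Adj (v, n + 1) x ↔ x = (v, n) ∨ x = (v, n + 2) := by
  rw [adj_iff]
  constructor
  · rintro (⟨h1, h | h⟩ | ⟨h, _, _⟩)
    · right; ext1; exact h1.symm; simpa using h
    · left; ext1; exact h1.symm; simpa using h.symm
    · simp at h
  · rintro (rfl | rfl)
    · left; exact ⟨rfl, Or.inr rfl⟩
    · left; exact ⟨rfl, Or.inl rfl⟩

theorem connected : (gr Ω).Connected := by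
  have h0 : ∀ x : Core Ω × ℕ, (gr Ω).Reachable x (.root, 0) := by
    rintro ⟨v, n⟩
    induction n with
    | zero =>
      cases v with
      | root => exact SimpleGraph.Reachable.refl _
      | lo p => exact (adj_core.mpr trivial : (gr Ω).Adj (.lo p, 0) (.root, 0)).reachable
      | hi q =>
        exact (adj_core.mpr le_rfl : (gr Ω).Adj (.hi q, 0) (.lo q, 0)).reachable.trans
          (adj_core.mpr trivial : (gr Ω).Adj (.lo q, 0) (.root, 0)).reachable
    | succ n ih => exact (adj_up v n).symm.reachable.trans ih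
  have : Nonempty (Core Ω × ℕ) := ⟨(.root, 0)⟩
  exact SimpleGraph.Connected.mk fun x y => (h0 x).trans (h0 y).symm

/-- a walk which leaves the upper part of a ray passes through its foot -/
theorem mem_support (v : Core Ω) (n : ℕ) {x y : Core Ω × ℕ} (p : (gr Ω).Walk x y)
    (hx : x.1 = v ∧ n < x.2) (hy : ¬ (y.1 = v ∧ n < y.2)) : (v, n) ∈ p.support := by
  induction p with
  | nil => exact absurd hx hy
  | @cons a b c hab q ih =>
    rw [SimpleGraph.Walk.support_cons]
    by_cases hb : b.1 = v ∧ n < b.2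
    · exact List.mem_cons_of_mem _ (ih hb hy)
    · -- `b` must be the foot
      have hb' : b = (v, n) := by
        rcases (adj_iff a b).mp hab with ⟨h1, h2 | h2⟩ | ⟨h1, _, _⟩
        · exact absurd ⟨h1 ▸ hx.1, by omega⟩ hb
        · have h3 : b.1 = v := h1 ▸ hx.1
          have h4 : ¬ n < b.2 := fun h => hb ⟨h3, h⟩
          ext1
          · exact h3
          · show b.2 = n
            omega
        · omega
      apply List.mem_cons_of_mem
      rw [← hb']
      exact q.start_mem_support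

theorem treeLike : TreeLike (gr Ω) (.root, 0) := by
  refine ⟨connected, ?_⟩
  rintro ⟨v, n⟩
  refine ⟨(v, n + 1), adj_up v n, fun p _ => ?_⟩
  exact mem_support v n p ⟨rfl, Nat.lt_succ_self n⟩ (fun h => absurd h.2 (Nat.not_lt_zero n))

/-! ### lifting order automorphisms -/

def coreMap (g : Ω → Ω) : Core Ω → Core Ω
  | .root => .root
  | .lo p => .lo (g p)
  | .hi q => .hi (g q)

theorem coreMap_adj (g : Ω ≃o Ω) (u v : Core Ω) :
    coreAdj (coreMap g u) (coreMap g v) ↔ coreAdj u v := by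
  cases u <;> cases v <;> simp [coreMap, coreAdj]

def coreEquiv (g : Ω ≃o Ω) : Core Ω ≃ Core Ω where
  toFun := coreMap g
  invFun := coreMap g.symm
  left_inv := fun u => by cases u <;> simp [coreMap]
  right_inv := fun u => by cases u <;> simp [coreMap]

def lift (g : Ω ≃o Ω) : gr Ω ≃g gr Ω where
  toEquiv := (coreEquiv g).prodCongr (Equiv.refl ℕ)
  map_rel_iff' := by
    rintro ⟨u, m⟩ ⟨v, n⟩
    rw [adj_iff, adj_iff]
    show (coreMap g u = coreMap g v ∧ _ ∨ _ ∧ _ ∧ coreAdj (coreMap g u) (coreMap g v)) ↔ _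
    rw [coreMap_adj]
    have : coreMap g u = coreMap g v ↔ u = v := (coreEquiv g).injective.eq_iff
    rw [this]
    rfl

theorem lift_apply (g : Ω ≃o Ω) (v : Core Ω) (n : ℕ) : lift g (v, n) = (coreMap g v, n) := rfl

/-! ### analysis of automorphisms -/

/-- having three different neighbours -/
def Three {V : Type} (G : SimpleGraph V) (x : V) : Prop :=
  ∃ a b c, G.Adj x a ∧ G.Adj x b ∧ G.Adj x c ∧ a ≠ b ∧ a ≠ c ∧ b ≠ c

theorem three_map {V : Type} {G : SimpleGraph V} (φ : G ≃g G) {x : V} (h : Three G x) :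
    Three G (φ x) := by
  obtain ⟨a, b, c, h1, h2, h3, h4, h5, h6⟩ := h
  exact ⟨φ a, φ b, φ c, φ.map_rel_iff.mpr h1, φ.map_rel_iff.mpr h2, φ.map_rel_iff.mpr h3,
    φ.injective.ne h4, φ.injective.ne h5, φ.injective.ne h6⟩

theorem three_map_iff {V : Type} {G : SimpleGraph V} (φ : G ≃g G) {x : V} :
    Three G (φ x) ↔ Three G x := by
  refine ⟨fun h => ?_, three_map φ⟩
  have := three_map φ.symm h
  simpa using this

variable (hup : ∀ x : Ω, ∃ y, x < y) (hdn : ∀ x : Ω, ∃ y, y < x) (o : Ω)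

include hup hdn o

theorem three_iff (x : Core Ω × ℕ) : Three (gr Ω) x ↔ x.2 = 0 := by
  constructor
  · rintro ⟨a, b, c, h1, h2, h3, h4, h5, h6⟩
    obtain ⟨v, n⟩ := x
    cases n with
    | zero => rfl
    | succ n =>
      exfalso
      rw [adj_ray] at h1 h2 h3
      rcases h1 with rfl | rfl <;> rcases h2 with rfl | rfl <;> rcases h3 with rfl | rfl <;>
        simp_all
  · intro hx
    obtain ⟨v, n⟩ := x
    simp only at hx
    subst hx
    cases v with
    | root =>
      obtain ⟨y, hy⟩ := hup o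
      exact ⟨(.root, 1), (.lo o, 0), (.lo y, 0), adj_up _ 0, adj_core.mpr trivial,
        adj_core.mpr trivial, by simp, by simp, by simpa using hy.ne⟩
    | lo p =>
      exact ⟨(.lo p, 1), (.root, 0), (.hi p, 0), adj_up _ 0, adj_core.mpr trivial,
        adj_core.mpr le_rfl, by simp, by simp, by simp⟩
    | hi q =>
      obtain ⟨y, hy⟩ := hdn q
      exact ⟨(.hi q, 1), (.lo q, 0), (.lo y, 0), adj_up _ 0, adj_core.mpr le_rfl,
        adj_core.mpr hy.le, by simp, by simp, by simpa using hy.ne'⟩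

/-- the core map of an automorphism -/
theorem exists_coreMap (φ : gr Ω ≃g gr Ω) : ∃ γ : Core Ω → Core Ω, ∀ v, φ (v, 0) = (γ v, 0) := by
  refine ⟨fun v => (φ (v, 0)).1, fun v => ?_⟩
  have h1 : Three (gr Ω) (φ (v, 0)) := (three_map_iff φ).mpr ((three_iff hup hdn o _).mpr rfl)
  have h2 := (three_iff hup hdn o _).mp h1
  ext1
  · rfl
  · exact h2

theorem ray_map (φ : gr Ω ≃g gr Ω) (γ : Core Ω → Core Ω) (hγ : ∀ v, φ (v, 0) = (γ v, 0))
    (v : Core Ω) (n : ℕ) : φ (v, n) = (γ v, n) := by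
  have key : ∀ n, φ (v, n) = (γ v, n) ∧ φ (v, n + 1) = (γ v, n + 1) := by
    intro n
    induction n with
    | zero =>
      refine ⟨hγ v, ?_⟩
      have h1 : (gr Ω).Adj (φ (v, 0)) (φ (v, 1)) := φ.map_rel_iff.mpr (adj_up v 0)
      have h2 : ¬ Three (gr Ω) (φ (v, 1)) := by
        rw [three_map_iff, three_iff hup hdn o]
        simp
      rw [three_iff hup hdn o] at h2
      rw [hγ] at h1
      rcases (adj_iff _ _).mp h1 with ⟨h3, h4 | h4⟩ | ⟨_, h4, _⟩
      · ext1
        · exact h3.symm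
        · exact h4
      · simp at h4
      · exact absurd h4 h2
    | succ n ih =>
      refine ⟨ih.2, ?_⟩
      have h1 : (gr Ω).Adj (φ (v, n + 1)) (φ (v, n + 2)) := φ.map_rel_iff.mpr (adj_up v (n + 1))
      rw [ih.2, adj_ray] at h1
      rcases h1 with h1 | h1
      · exfalso
        rw [← ih.1] at h1
        have := φ.injective h1
        simp at this
      · exact h1
  exact (key n).1

theorem core_adj_map (φ : gr Ω ≃g gr Ω) (γ : Core Ω → Core Ω) (hγ : ∀ v, φ (v, 0) = (γ v, 0))
    (u v : Core Ω) : coreAdj (γ u) (γ v) ↔ coreAdj u v := by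
  rw [← adj_core, ← adj_core, ← hγ, ← hγ]
  exact φ.map_rel_iff

omit hup hdn o in
theorem root_central (u : Core Ω) : u = .root ∨ coreAdj u .root ∨
    ∃ c, coreAdj u c ∧ coreAdj c .root := by
  cases u with
  | root => exact Or.inl rfl
  | lo p => exact Or.inr (Or.inl trivial)
  | hi q => exact Or.inr (Or.inr ⟨.lo q, le_rfl, trivial⟩)

theorem central_root (v : Core Ω) (hv : ∀ u : Core Ω, u = v ∨ coreAdj u v ∨
    ∃ c, coreAdj u c ∧ coreAdj c v) : v = .root := by
  cases v with
  | root => rfl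
  | lo p =>
    exfalso
    obtain ⟨q, hq⟩ := hdn p
    rcases hv (.hi q) with h | h | ⟨c, h1, h2⟩
    · cases h
    · exact absurd (show p ≤ q from h) (not_le.mpr hq)
    · cases c with
      | root => exact h1
      | lo r => exact h2
      | hi r => exact h1
  | hi q =>
    exfalso
    obtain ⟨p, hp⟩ := hup q
    rcases hv (.lo p) with h | h | ⟨c, h1, h2⟩
    · cases h
    · exact absurd (show p ≤ q from h) (not_le.mpr hp)
    · cases c with
      | root => exact h2
      | lo r => exact h1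
      | hi r => exact h2

/-- every automorphism is the lift of a map of the order -/
theorem exists_order_map (φ : gr Ω ≃g gr Ω) : ∃ α : Ω → Ω, StrictMono α ∧ Function.Surjective α ∧
    ∀ v n, φ (v, n) = (coreMap α v, n) := by
  obtain ⟨γ, hγ⟩ := exists_coreMap hup hdn o φ
  obtain ⟨δ, hδ⟩ := exists_coreMap hup hdn o φ.symm
  have hγδ : ∀ v, γ (δ v) = v := by
    intro v
    have h1 : φ (φ.symm (v, 0)) = (v, 0) := φ.apply_symm_apply _
    rw [hδ, hγ] at h1
    exact congrArg Prod.fst h1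
  have hδγ : ∀ v, δ (γ v) = v := by
    intro v
    have h1 : φ.symm (φ (v, 0)) = (v, 0) := φ.symm_apply_apply _
    rw [hγ, hδ] at h1
    exact congrArg Prod.fst h1
  have hadj := core_adj_map hup hdn o φ γ hγ
  have hinj : Function.Injective γ := Function.LeftInverse.injective hδγ
  have hroot : γ .root = .root := by
    apply central_root hup hdn o
    intro u
    rcases root_central (δ u) with h | h | ⟨c, h1, h2⟩
    · left; rw [← h, hγδ]
    · right; left
      have := (hadj _ _).mpr h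
      rwa [hγδ] at this
    · right; right
      refine ⟨γ c, ?_, (hadj _ _).mpr h2⟩
      have := (hadj _ _).mpr h1
      rwa [hγδ] at this
  have hlo : ∀ p, ∃ p', γ (.lo p) = .lo p' := by
    intro p
    have h1 : coreAdj (γ (.lo p)) .root := by
      rw [← hroot]
      exact (hadj _ _).mpr trivial
    generalize γ (.lo p) = z at h1
    cases z with
    | root => exact h1.elim
    | lo r => exact ⟨r, rfl⟩
    | hi r => exact h1.elim
  have hlo' : ∀ p, ∃ p', γ (.lo p') = .lo p := by
    intro p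
    have h1 : coreAdj (δ (.lo p)) .root := by
      rw [← hadj, hγδ, hroot]
      trivial
    cases hz : δ (.lo p) with
    | root => rw [hz] at h1; exact h1.elim
    | lo r => exact ⟨r, by rw [← hz, hγδ]⟩
    | hi r => rw [hz] at h1; exact h1.elim
  have hhi : ∀ q, ∃ q', γ (.hi q) = .hi q' := by
    intro q
    cases hz : γ (.hi q) with
    | root =>
      exfalso
      have := hinj (hz.trans hroot.symm)
      cases this
    | lo r =>
      exfalso
      obtain ⟨p', hp'⟩ := hlo' r
      have := hinj (hz.trans hp'.symm)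
      cases this
    | hi r => exact ⟨r, rfl⟩
  have hhi' : ∀ q, ∃ q', γ (.hi q') = .hi q := by
    intro q
    cases hz : δ (.hi q) with
    | root =>
      exfalso
      have h1 := hγδ (.hi q)
      rw [hz, hroot] at h1
      cases h1
    | lo r =>
      exfalso
      have h1 := hγδ (.hi q)
      rw [hz] at h1
      obtain ⟨r', hr'⟩ := hlo r
      rw [hr'] at h1
      cases h1
    | hi r => exact ⟨r, by rw [← hz, hγδ]⟩
  choose α hα using hlo
  choose β hβ using hhi
  have hrel : ∀ p q, α p ≤ β q ↔ p ≤ q := by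
    intro p q
    have := hadj (.lo p) (.hi q)
    rw [hα, hβ] at this
    exact this
  have hαs : Function.Surjective α := by
    intro p
    obtain ⟨p', hp'⟩ := hlo' p
    rw [hα] at hp'
    exact ⟨p', Core.lo.inj hp'⟩
  have hβs : Function.Surjective β := by
    intro p
    obtain ⟨p', hp'⟩ := hhi' p
    rw [hβ] at hp'
    exact ⟨p', Core.hi.inj hp'⟩
  have hαβ : ∀ q, β q = α q := by
    intro q
    apply le_antisymm
    · obtain ⟨p, hp⟩ := hαs (β q)
      have h1 : p ≤ q := (hrel p q).mp hp.le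
      have h2 : α p ≤ β p := (hrel p p).mpr le_rfl
      rw [← hp]
      -- `α p ≤ α q`
      obtain ⟨r, hr⟩ := hβs (α q)
      have h3 : q ≤ r := (hrel q r).mp hr.ge
      rw [← hr]
      exact (hrel p r).mpr (h1.trans h3)
    · exact (hrel q q).mpr le_rfl
  have hle : ∀ p q, α p ≤ α q ↔ p ≤ q := fun p q => by rw [← hαβ q, hrel]
  refine ⟨α, ?_, hαs, ?_⟩
  · intro p q hpq
    rw [← not_le, hle]
    exact not_le.mpr hpq
  · intro v n
    rw [ray_map hup hdn o φ γ hγ]
    cases v with
    | root => rw [hroot]; rfl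
    | lo p => rw [hα]; rfl
    | hi q => rw [hβ, hαβ]; rfl

/-- a non-identical automorphism moves a whole interval of the order -/
theorem moved (φ : gr Ω ≃g gr Ω) (hφ : φ ≠ RelIso.refl _) :
    ∃ p q : Ω, p < q ∧ ∀ z, p < z → z < q → φ (.lo z, 0) ≠ (.lo z, 0) := by
  obtain ⟨α, hα, _, hφα⟩ := exists_order_map hup hdn o φ
  have hex : ∃ p, α p ≠ p := by
    by_contra hcon
    push Not at hcon
    apply hφ
    ext1 ⟨v, n⟩
    rw [hφα]
    cases v with
    | root => rfl
    | lo p => simp [coreMap, hcon]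
    | hi p => simp [coreMap, hcon]
  obtain ⟨p, hp⟩ := hex
  have hmv : ∀ z, α z ≠ z → φ (.lo z, 0) ≠ (.lo z, 0) := by
    intro z hz h
    rw [hφα] at h
    exact hz (Core.lo.inj (congrArg Prod.fst h))
  rcases lt_or_gt_of_ne hp with h | h
  · exact ⟨α p, p, h, fun z h1 h2 => hmv z ((hα h2).trans h1).ne⟩
  · exact ⟨p, α p, h, fun z h1 h2 => hmv z (h2.trans (hα h1)).ne'⟩

end graph

/-! ## The theorem -/

theorem mk_core {Ω : Type} {m : Cardinal.{0}} (hm : ℵ₀ ≤ m) (hΩ : #Ω ≤ m) : #(Core Ω × ℕ) ≤ m := by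
  let F : Core Ω → Option (Ω ⊕ Ω) := fun u => match u with
    | .root => none
    | .lo p => some (Sum.inl p)
    | .hi q => some (Sum.inr q)
  have hF : Function.Injective F := by
    intro u v huv
    cases u <;> cases v <;> simp_all [F]
  have h1 : #(Core Ω) ≤ m := by
    refine (Cardinal.mk_le_of_injective hF).trans ?_
    rw [Cardinal.mk_option, Cardinal.mk_sum, Cardinal.lift_id]
    refine (add_le_add (add_le_add hΩ hΩ) (one_le_aleph0.trans hm)).trans ?_
    rw [Cardinal.add_eq_self hm, Cardinal.add_eq_self hm]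
  rw [Cardinal.mk_prod, Cardinal.lift_id, Cardinal.lift_id, Cardinal.mk_nat]
  refine (mul_le_mul' h1 hm).trans ?_
  rw [Cardinal.mul_eq_self hm]

/-- **Theorem.** For every cardinal `θ ≥ 𝔠` there is a tree-like graph with motion `m = 2 ^ θ` and
maximum degree at most `m` (all the more at most `2 ^ m`) such that every set of vertices is
fixed setwise by a non-identity automorphism. -/
theorem result (θ : Cardinal.{0}) (hθ : 𝔠 ≤ θ) :
    ∃ (V : Type) (G : SimpleGraph V) (w : V) (m : Cardinal.{0}), m = 2 ^ θ ∧ ℵ₀ < m ∧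
      TreeLike G w ∧ HasMotion G m ∧ #V = m ∧ maxDeg G ≤ m ∧ maxDeg G ≤ 2 ^ m ∧
      ∀ S : Set V, ∃ φ : G ≃g G, φ ≠ RelIso.refl _ ∧ φ '' S = S := by
  have hθ0 : ℵ₀ ≤ θ := aleph0_le_continuum.trans hθ
  set m : Cardinal.{0} := 2 ^ θ with hm
  have hm0 : ℵ₀ < m := hθ0.trans_lt (Cardinal.cantor θ)
  have hΩ : #(Om (Lam θ)) = m := mk_Om hθ0
  have hV : #(Core (Om (Lam θ)) × ℕ) ≤ m := mk_core hm0.le hΩ.le
  obtain ⟨o, o', _⟩ := exists_pair (θ := θ) hθ0
  have hup : ∀ x : Om (Lam θ), ∃ y, x < y := exists_above hθ0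
  have hdn : ∀ x : Om (Lam θ), ∃ y, y < x := exists_below hθ0
  -- every set of vertices is preserved
  have hpres : ∀ S : Set (Core (Om (Lam θ)) × ℕ), ∃ φ : gr (Om (Lam θ)) ≃g gr (Om (Lam θ)),
      φ ≠ RelIso.refl _ ∧ φ '' S = S := by
    intro S
    let f : Om (Lam θ) → (ℕ → Prop) × (ℕ → Prop) := fun p =>
      (fun n => (Core.lo p, n) ∈ S, fun n => (Core.hi p, n) ∈ S)
    have hK : #((ℕ → Prop) × (ℕ → Prop)) ≤ θ := by
      have : #((ℕ → Prop) × (ℕ → Prop)) = 𝔠 := by
        rw [Cardinal.mk_prod, Cardinal.lift_id, ← Cardinal.power_def]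
        simp
      rw [this]
      exact hθ
    obtain ⟨g, ⟨x, hx⟩, hg⟩ := exists_auto hθ0 hK f
    refine ⟨lift g, ?_, ?_⟩
    · intro h
      apply hx
      have h1 : lift g (.lo x, 0) = (.lo x, 0) := by rw [h]; rfl
      rw [lift_apply] at h1
      exact Core.lo.inj (congrArg Prod.fst h1)
    · have hmem : ∀ y, lift g y ∈ S ↔ y ∈ S := by
        rintro ⟨v, n⟩
        rw [lift_apply]
        cases v with
        | root => exact Iff.rfl
        | lo p => exact Iff.of_eq (congrFun (congrArg Prod.fst (hg p)) n)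
        | hi p => exact Iff.of_eq (congrFun (congrArg Prod.snd (hg p)) n)
      ext y
      constructor
      · rintro ⟨z, hz, rfl⟩
        exact (hmem z).mpr hz
      · intro hy
        refine ⟨(lift g).symm y, ?_, (lift g).apply_symm_apply y⟩
        rw [← hmem, (lift g).apply_symm_apply]
        exact hy
  -- the number of moved points
  have hmoved : ∀ φ : gr (Om (Lam θ)) ≃g gr (Om (Lam θ)), φ ≠ RelIso.refl _ →
      m ≤ #{v | φ v ≠ v} := by
    intro φ hφ
    obtain ⟨p, q, hpq, hmv⟩ := moved hup hdn o φ hφ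
    refine (le_mk_Ioo hθ0 hpq).trans ?_
    let F : Ioo p q → {v | φ v ≠ v} := fun z => ⟨(.lo z, 0), hmv z z.2.1 z.2.2⟩
    have hF : Function.Injective F := by
      intro z z' h
      exact Subtype.ext (Core.lo.inj (congrArg Prod.fst (congrArg Subtype.val h)))
    exact Cardinal.mk_le_of_injective hF
  have hmotion : HasMotion (gr (Om (Lam θ))) m := by
    constructor
    · obtain ⟨φ, hφ, _⟩ := hpres ∅
      exact ⟨φ, hφ, le_antisymm (hmoved φ hφ) ((Cardinal.mk_set_le _).trans hV)⟩
    · rintro c ⟨φ, hφ, rfl⟩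
      exact hmoved φ hφ
  have hVeq : #(Core (Om (Lam θ)) × ℕ) = m := by
    apply le_antisymm hV
    obtain ⟨φ, hφ, _⟩ := hpres ∅
    exact (hmoved φ hφ).trans (Cardinal.mk_set_le _)
  have hdeg : maxDeg (gr (Om (Lam θ))) ≤ m :=
    ciSup_le' fun v => (Cardinal.mk_set_le _).trans hV
  exact ⟨_, gr (Om (Lam θ)), (.root, 0), m, rfl, hm0, treeLike, hmotion, hVeq, hdeg,
    hdeg.trans (Cardinal.cantor m).le, hpres⟩

end Pool.Agent.Results.MP_53e992_co.NotTwoDistinguishable
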